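import Pool.Agent.helper23.F2.Spec

set_option autoImplicit false

open scoped BigOperators

namespace Pool.Agent.F2

open Pool.Agent.helper23.TH

open Classical in
theorem CL2_dg {V L : Type} [Fintype V] {b s : ℕ} (G : LG V L b s) (U : Finset V) (v : {x // x ∈ U}) :
    dg (G.sub U).A Finset.univ v = dg G.A U v.1 := by
  unfold dg
  rw [← Finset.card_map (Function.Embedding.subtype fun x => x ∈ U)]
  congr 1
  ext w
  rw [Finset.mem_map, Finset.mem_filter]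
  constructor
  · rintro ⟨w', hw', rfl⟩
    rw [Finset.mem_filter] at hw'
    exact ⟨w'.2, hw'.2⟩
  · rintro ⟨hw, hw'⟩
    exact ⟨⟨w, hw⟩, Finset.mem_filter.2 ⟨Finset.mem_univ _, hw'⟩, rfl⟩

theorem CL2 (hMD : Pool.Agent.IV.MD_stmt) : CL2_stmt := by
  intro a ha ha1
  obtain ⟨κ, hκ, h⟩ := hMD a ha ha1
  refine ⟨κ, hκ, fun C₂ hC₂ => ?_⟩
  obtain ⟨C₁, hC₁, h1⟩ := h C₂ hC₂
  refine ⟨C₁, hC₁, ?_⟩
  intro V L _ b s G hV hsum
  obtain ⟨U, d, hU, hd, hreg⟩ := h1 V G.A G.symm hV hsum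
  refine ⟨U, d, hU, hd, fun v => ?_⟩
  rw [CL2_dg G U v]
  exact hreg v.1 v.2

end Pool.Agent.F2
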